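import Pool.Agent.NH62.LR.E

/-!
# Analytic families of relative periodic solutions containing a Lyapunov stable orbit

An analytic family of relative periodic solutions of the planar `n`-body problem that contains a single
Lyapunov stable orbit which is not a relative equilibrium is rigid as a whole: rotation and Kepler
quantity are constant, and it can accumulate at a relative equilibrium only if the ratio of the
frequencies is rational.
-/

set_option autoImplicit false

namespace Pool.Agent.Results.MP_5027f4_mp.AnalyticFamilies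

open Filter Topology

/-- Phase points of `n` bodies in the plane `ℂ`: positions and velocities (product topology). -/
abbrev Ph (n : ℕ) := (Fin n → ℂ) × (Fin n → ℂ)

/-- Newtonian acceleration of body `a`: `∑_{b ≠ a} m_b (q_b - q_a) / |q_b - q_a|^3`. -/
noncomputable def acc {n : ℕ} (m : Fin n → ℝ) (q : Fin n → ℂ) (a : Fin n) : ℂ :=
  ∑ b ∈ Finset.univ.erase a, ((m b / ‖q b - q a‖ ^ 3 : ℝ) : ℂ) * (q b - q a)

/-- Total energy: kinetic energy minus the sum over pairs of `m_a m_b / |q_b - q_a|` (each pair occurs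
twice in the double sum, which is halved). -/
noncomputable def energy {n : ℕ} (m : Fin n → ℝ) (z : Ph n) : ℝ :=
  (∑ a, m a * ‖z.2 a‖ ^ 2) / 2 -
    (∑ a, ∑ b ∈ Finset.univ.erase a, m a * m b / ‖z.1 b - z.1 a‖) / 2

/-- The phase space in the centre of mass frame: no collisions, `∑ m_a q_a = 0`, `∑ m_a v_a = 0`. -/
def phaseSpace {n : ℕ} (m : Fin n → ℝ) : Set (Ph n) :=
  {z | (∀ a b, a ≠ b → z.1 a ≠ z.1 b) ∧ ∑ a, (m a : ℂ) * z.1 a = 0 ∧ ∑ a, (m a : ℂ) * z.2 a = 0}

/-- `x = (q, v)` is a solution of Newton's equations on the time set `J`, in the centre of mass frame. -/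
def IsSol {n : ℕ} (m : Fin n → ℝ) (J : Set ℝ) (x : ℝ → Ph n) : Prop :=
  ∀ t ∈ J, x t ∈ phaseSpace m ∧ HasDerivWithinAt x ((x t).2, acc m (x t).1) J t

/-- All mutual distances of the solution `x` are `T`-periodic functions of time. -/
def DistPer {n : ℕ} (x : ℝ → Ph n) (T : ℝ) : Prop :=
  ∀ t a b, ‖(x (t + T)).1 a - (x (t + T)).1 b‖ = ‖(x t).1 a - (x t).1 b‖

/-- All mutual distances are constant: a relative equilibrium. -/
def IsRelEq {n : ℕ} (x : ℝ → Ph n) : Prop :=
  ∀ t a b, ‖(x t).1 a - (x t).1 b‖ = ‖(x 0).1 a - (x 0).1 b‖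

/-- Lyapunov stability of an orbit `γ` in the centre of mass frame: for every neighbourhood `U₁` there is
a neighbourhood `U₂` such that every solution on `[0, ∞)` that starts in `U₂` stays in `U₁`. -/
def LyapunovStable {n : ℕ} (m : Fin n → ℝ) (γ : Set (Ph n)) : Prop :=
  ∀ U₁ : Set (Ph n), IsOpen U₁ → γ ⊆ U₁ → ∃ U₂ : Set (Ph n), IsOpen U₂ ∧ γ ⊆ U₂ ∧
    ∀ y : ℝ → Ph n, IsSol m (Set.Ici 0) y → y 0 ∈ U₂ → ∀ t : ℝ, 0 ≤ t → y t ∈ U₁

/-- Let `s ↦ y s`, `s ∈ I` (an interval), be an analytic family of relative periodic solutions of the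
planar `n`-body problem whose mutual distances have the analytic period `S s`, and suppose that one
member `y s₀` is not a relative equilibrium and has a Lyapunov stable orbit.  Then for some `K ≥ 1` and
`c` with `c ^ K = 1` every member satisfies `y(t + 2 S) = c y(t)`, is periodic with period `2 K S`, and has
the same Kepler quantity `S ^ 2 E ^ 3`; every solution `w` at which the family accumulates, with `S → S₀`,
satisfies `w(t + 2 S₀) = c w(t)`, and if `w` is a relative equilibrium with angular velocity `ω`, then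
`K ω S₀` is an integer multiple of `π`. -/
theorem result {n : ℕ} {m : Fin n → ℝ} (hn : 2 ≤ n) (hm : ∀ a, 0 < m a) {I : Set ℝ} (hI : IsOpen I)
    (hIc : IsPreconnected I) {y : ℝ → ℝ → Ph n}
    (hA : AnalyticOnNhd ℝ (fun p : ℝ × ℝ => y p.1 p.2) (I ×ˢ Set.univ))
    (hy : ∀ s ∈ I, IsSol m Set.univ (y s)) {S : ℝ → ℝ} (hS : AnalyticOnNhd ℝ S I)
    (hS0 : ∀ s ∈ I, 0 < S s) (hper : ∀ s ∈ I, DistPer (y s) (S s)) {s₀ : ℝ} (hs₀ : s₀ ∈ I)
    (hne : ¬ IsRelEq (y s₀)) (hst : LyapunovStable m (Set.range (y s₀))) :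
    ∃ (K : ℕ) (c : ℂ), 1 ≤ K ∧ c ^ K = 1 ∧
      (∀ s ∈ I, (∀ t, y s (t + 2 * S s) = c • y s t) ∧ (∀ t, y s (t + 2 * K * S s) = y s t) ∧
        S s ^ 2 * energy m (y s 0) ^ 3 = S s₀ ^ 2 * energy m (y s₀ 0) ^ 3) ∧
      ∀ (w : ℝ → Ph n) (S₀ : ℝ) (σ : ℕ → ℝ), IsSol m Set.univ w → (∀ j, σ j ∈ I) →
        Tendsto (fun j => y (σ j) 0) atTop (𝓝 (w 0)) → Tendsto (fun j => S (σ j)) atTop (𝓝 S₀) →
        (∀ t, w (t + 2 * S₀) = c • w t) ∧
          ∀ ω : ℝ, (∀ t : ℝ, w t = Complex.exp (ω * t * Complex.I) • w 0) →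
            ∃ k : ℤ, K * ω * S₀ = Real.pi * k :=
  Pool.Agent.NH62.LR.famlim hn hm hI hIc hA hy hS hS0 hper hs₀ hne hst

end Pool.Agent.Results.MP_5027f4_mp.AnalyticFamilies
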