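import Pool.Agent.NH62.LR.Main

/-!
# Lyapunov stability of a relative periodic orbit forces an additional first integral

Let `γ` be the orbit of a relative periodic solution of the planar `n`-body problem which is not a
relative equilibrium.  If `γ` is Lyapunov stable in the centre of mass frame, then a neighbourhood of
`γ` carries a Borel first integral with values in the unit circle which is equivariant (not invariant)
under rotations: it plays the role of the direction of the Laplace vector in the two-body problem.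
-/

set_option autoImplicit false

namespace Pool.Agent.Results.MP_5027f4_mp.ExtraFirstIntegral

/-- Phase points of `n` bodies in the plane `ℂ`: positions and velocities (product topology). -/
abbrev Ph (n : ℕ) := (Fin n → ℂ) × (Fin n → ℂ)

/-- Newtonian acceleration of body `a`: `∑_{b ≠ a} m_b (q_b - q_a) / |q_b - q_a|^3`. -/
noncomputable def acc {n : ℕ} (m : Fin n → ℝ) (q : Fin n → ℂ) (a : Fin n) : ℂ :=
  ∑ b ∈ Finset.univ.erase a, ((m b / ‖q b - q a‖ ^ 3 : ℝ) : ℂ) * (q b - q a)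

/-- The phase space in the centre of mass frame: no collisions, `∑ m_a q_a = 0`, `∑ m_a v_a = 0`. -/
def phaseSpace {n : ℕ} (m : Fin n → ℝ) : Set (Ph n) :=
  {z | (∀ a b, a ≠ b → z.1 a ≠ z.1 b) ∧ ∑ a, (m a : ℂ) * z.1 a = 0 ∧ ∑ a, (m a : ℂ) * z.2 a = 0}

/-- `x = (q, v)` is a solution of Newton's equations on the time set `J`, in the centre of mass frame. -/
def IsSol {n : ℕ} (m : Fin n → ℝ) (J : Set ℝ) (x : ℝ → Ph n) : Prop :=
  ∀ t ∈ J, x t ∈ phaseSpace m ∧ HasDerivWithinAt x ((x t).2, acc m (x t).1) J t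

/-- All mutual distances of the solution `x` are `T`-periodic functions of time. -/
def DistPer {n : ℕ} (x : ℝ → Ph n) (T : ℝ) : Prop :=
  ∀ t a b, ‖(x (t + T)).1 a - (x (t + T)).1 b‖ = ‖(x t).1 a - (x t).1 b‖

/-- All mutual distances are constant: a relative equilibrium. -/
def IsRelEq {n : ℕ} (x : ℝ → Ph n) : Prop :=
  ∀ t a b, ‖(x t).1 a - (x t).1 b‖ = ‖(x 0).1 a - (x 0).1 b‖

/-- Lyapunov stability of an orbit `γ` in the centre of mass frame: for every neighbourhood `U₁` there is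
a neighbourhood `U₂` such that every solution on `[0, ∞)` that starts in `U₂` stays in `U₁`. -/
def LyapunovStable {n : ℕ} (m : Fin n → ℝ) (γ : Set (Ph n)) : Prop :=
  ∀ U₁ : Set (Ph n), IsOpen U₁ → γ ⊆ U₁ → ∃ U₂ : Set (Ph n), IsOpen U₂ ∧ γ ⊆ U₂ ∧
    ∀ y : ℝ → Ph n, IsSol m (Set.Ici 0) y → y 0 ∈ U₂ → ∀ t : ℝ, 0 ≤ t → y t ∈ U₁

/-- The points `y t`, `t ≥ 0`, of all solutions `y` on `[0, ∞)` with `y 0 ∈ V`. -/
def flowout {n : ℕ} (m : Fin n → ℝ) (V : Set (Ph n)) : Set (Ph n) :=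
  {z | ∃ y, IsSol m (Set.Ici 0) y ∧ y 0 ∈ V ∧ ∃ t, 0 ≤ t ∧ y t = z}

/-- Let `x` be a relative periodic solution of the planar `n`-body problem, not a relative equilibrium,
with Lyapunov stable orbit.  The rotations preserving the orbit are the `K`-th roots of unity for some
`K ≥ 1`, and for every `ε > 0` there are open sets `U ⊆ V` containing the orbit, `V` invariant under
rotations, and a function `Φ`, Borel on `D = flowout m V`, with `|Φ| = 1` on `D`, `Φ (c z) = c ^ K Φ z` for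
every rotation `c`, constant along all solutions, and `|Φ - 1| ≤ ε` on `D ∩ U`. -/
theorem result {n : ℕ} {m : Fin n → ℝ} (hn : 2 ≤ n) (hm : ∀ a, 0 < m a) {x : ℝ → Ph n}
    (hx : IsSol m Set.univ x) {T : ℝ} (hT0 : 0 < T) (hT : DistPer x T)
    (hst : LyapunovStable m (Set.range x)) (hne : ¬ IsRelEq x) :
    ∃ K : ℕ, 1 ≤ K ∧ (∀ c : ℂ, ‖c‖ = 1 → ((∀ t, c • x t ∈ Set.range x) ↔ c ^ K = 1)) ∧
      ∀ ε : ℝ, 0 < ε → ∃ (U V : Set (Ph n)) (Φ : Ph n → ℂ),
        IsOpen U ∧ IsOpen V ∧ Set.range x ⊆ U ∧ U ⊆ V ∧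
        (∀ z ∈ V, ∀ c : ℂ, ‖c‖ = 1 → c • z ∈ V) ∧ (Measurable fun z : flowout m V => Φ z) ∧
        ∀ z ∈ flowout m V, ‖Φ z‖ = 1 ∧ (∀ c : ℂ, ‖c‖ = 1 → Φ (c • z) = c ^ K * Φ z) ∧
          (∀ y : ℝ → Ph n, IsSol m (Set.Ici 0) y → y 0 = z → ∀ t : ℝ, 0 ≤ t → Φ (y t) = Φ z) ∧
          (z ∈ U → ‖Φ z - 1‖ ≤ ε) :=
  Pool.Agent.NH62.LR.main hn hm hx hT0 hT hst hne

end Pool.Agent.Results.MP_5027f4_mp.ExtraFirstIntegral
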