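import Pool.Agent.NH62.LN.Main3

/-!
# Nondegenerate relative periodic orbits, and their limits, are not Lyapunov stable

If the orbit of a relative periodic solution of the planar `n`-body problem is Lyapunov stable in the
centre of mass frame, and the solution is not a relative equilibrium, then the orbit has a neighbourhood in
which all relative periodic solutions (among them the given one) are relative equilibria or degenerate: the
variational equation has a third solution with the same relative periodicity, besides the two that come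
from the time translations and the rotations.
-/

set_option autoImplicit false

namespace Pool.Agent.Results.MP_5027f4_mp.NondegenerateUnstable

/-- Phase points of `n` bodies in the plane `ℂ`: positions and velocities (product topology). -/
abbrev Ph (n : ℕ) := (Fin n → ℂ) × (Fin n → ℂ)

/-- Newtonian acceleration of body `a`: `∑_{b ≠ a} m_b (q_b - q_a) / |q_b - q_a|^3`. -/
noncomputable def acc {n : ℕ} (m : Fin n → ℝ) (q : Fin n → ℂ) (a : Fin n) : ℂ :=
  ∑ b ∈ Finset.univ.erase a, ((m b / ‖q b - q a‖ ^ 3 : ℝ) : ℂ) * (q b - q a)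

/-- The Newtonian vector field `(q, v) ↦ (v, acc q)`. -/
noncomputable def vf {n : ℕ} (m : Fin n → ℝ) (w : Ph n) : Ph n := (w.2, acc m w.1)

/-- The centre of mass frame: `∑ m_a q_a = 0`, `∑ m_a v_a = 0`. -/
def Centred {n : ℕ} (m : Fin n → ℝ) (z : Ph n) : Prop :=
  ∑ a, (m a : ℂ) * z.1 a = 0 ∧ ∑ a, (m a : ℂ) * z.2 a = 0

/-- The phase space in the centre of mass frame: no collisions, centred. -/
def phaseSpace {n : ℕ} (m : Fin n → ℝ) : Set (Ph n) :=
  {z | (∀ a b, a ≠ b → z.1 a ≠ z.1 b) ∧ Centred m z}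

/-- `x = (q, v)` is a solution of Newton's equations on the time set `J`, in the centre of mass frame. -/
def IsSol {n : ℕ} (m : Fin n → ℝ) (J : Set ℝ) (x : ℝ → Ph n) : Prop :=
  ∀ t ∈ J, x t ∈ phaseSpace m ∧ HasDerivWithinAt x (vf m (x t)) J t

/-- All mutual distances of the solution `x` are `T`-periodic functions of time. -/
def DistPer {n : ℕ} (x : ℝ → Ph n) (T : ℝ) : Prop :=
  ∀ t a b, ‖(x (t + T)).1 a - (x (t + T)).1 b‖ = ‖(x t).1 a - (x t).1 b‖

/-- All mutual distances are constant: a relative equilibrium. -/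
def IsRelEq {n : ℕ} (x : ℝ → Ph n) : Prop :=
  ∀ t a b, ‖(x t).1 a - (x t).1 b‖ = ‖(x 0).1 a - (x 0).1 b‖

/-- Lyapunov stability of an orbit `γ` in the centre of mass frame: for every neighbourhood `U₁` there is
a neighbourhood `U₂` such that every solution on `[0, ∞)` that starts in `U₂` stays in `U₁`. -/
def LyapunovStable {n : ℕ} (m : Fin n → ℝ) (γ : Set (Ph n)) : Prop :=
  ∀ U₁ : Set (Ph n), IsOpen U₁ → γ ⊆ U₁ → ∃ U₂ : Set (Ph n), IsOpen U₂ ∧ γ ⊆ U₂ ∧
    ∀ y : ℝ → Ph n, IsSol m (Set.Ici 0) y → y 0 ∈ U₂ → ∀ t : ℝ, 0 ≤ t → y t ∈ U₁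

/-- The solutions `ξ` of the variational equation along `x` in the centre of mass frame with the relative
period `(τ, c)`: `ξ (t + τ) = c ξ t`. -/
def IsVar {n : ℕ} (m : Fin n → ℝ) (x : ℝ → Ph n) (τ : ℝ) (c : ℂ) (ξ : ℝ → Ph n) : Prop :=
  (∀ t, Centred m (ξ t)) ∧ (∀ t, HasDerivAt ξ (fderiv ℝ (vf m) (x t) (ξ t)) t) ∧
    ∀ t, ξ (t + τ) = c • ξ t

/-- A relative periodic solution `x` of the planar `n`-body problem is nondegenerate for the relative
period `(τ, c)`, `x (t + τ) = c x t`, if the solutions of the variational equation with the same relative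
period are exactly the real combinations of `x'` (time translations) and `i x` (rotations). -/
def Nondegenerate {n : ℕ} (m : Fin n → ℝ) (x : ℝ → Ph n) (τ : ℝ) (c : ℂ) : Prop :=
  ∀ ξ, IsVar m x τ c ξ → ∃ α β : ℝ, ∀ t, ξ t = α • vf m (x t) + β • (Complex.I • x t)

/-- Let `x` be a relative periodic solution of the planar `n`-body problem which is not a relative
equilibrium.  Then `x (t + 2 T) = c x t` for some rotation `c`, and if the orbit of `x` is Lyapunov stable in
the centre of mass frame, then it has a neighbourhood `U` such that no relative periodic solution `y` that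
starts in `U` (in particular not `x` itself), other than relative equilibria, is nondegenerate for any of
its relative periods `(τ, c)`. -/
theorem result {n : ℕ} {m : Fin n → ℝ} (hn : 2 ≤ n) (hm : ∀ a, 0 < m a) {x : ℝ → Ph n}
    (hx : IsSol m Set.univ x) {T : ℝ} (hT0 : 0 < T) (hT : DistPer x T) (hne : ¬ IsRelEq x) :
    (∃ c : ℂ, ‖c‖ = 1 ∧ ∀ t, x (t + 2 * T) = c • x t) ∧
    (LyapunovStable m (Set.range x) → ∃ U : Set (Ph n), IsOpen U ∧ Set.range x ⊆ U ∧
      ∀ y : ℝ → Ph n, IsSol m Set.univ y → y 0 ∈ U → ¬ IsRelEq y →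
        ∀ (τ : ℝ) (c : ℂ), 0 < τ → ‖c‖ = 1 → (∀ t, y (t + τ) = c • y t) → ¬ Nondegenerate m y τ c) :=
  ⟨Pool.Agent.NH62.LN.rot2 hn hm hx hT, fun hst => Pool.Agent.NH62.LN.main3 hn hm hx hT0 hT hne hst⟩

end Pool.Agent.Results.MP_5027f4_mp.NondegenerateUnstable
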